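import Mathlib

/-! Counting points: the hypersurface `∑ y_e E_e(t) = 0`. -/

set_option autoImplicit false

namespace Pool.Agent.V8H32.CF
open Finset
open scoped Classical

variable {κ : Type} [Field κ] [Fintype κ]

lemma card_ker {ρ : Type} [Fintype ρ] (c : ρ → κ) (hc : c ≠ 0) :
    Fintype.card κ * Fintype.card {y : ρ → κ // ∑ e, y e * c e = 0} = Fintype.card κ ^ Fintype.card ρ := by
  obtain ⟨e₀, he₀⟩ : ∃ e, c e ≠ 0 := by
    by_contra h
    push Not at h
    exact hc (funext h)
  set ℓ : (ρ → κ) →+ κ := ⟨⟨fun y => ∑ e, y e * c e, by simp⟩, by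
    intro x y
    simp only [Pi.add_apply, add_mul, Finset.sum_add_distrib]⟩ with hℓ
  have hsurj : Function.Surjective ℓ := by
    intro b
    refine ⟨Pi.single e₀ (b / c e₀), ?_⟩
    rw [hℓ]
    simp only [AddMonoidHom.coe_mk, ZeroHom.coe_mk]
    rw [Finset.sum_eq_single e₀]
    · rw [Pi.single_eq_same, div_mul_cancel₀ _ he₀]
    · intro e _ he
      rw [Pi.single_eq_of_ne he, zero_mul]
    · intro h; exact absurd (Finset.mem_univ _) h
  have h1 : Nat.card (ρ → κ) = Nat.card κ * Nat.card ℓ.ker := by
    have h2 := AddSubgroup.card_eq_card_quotient_mul_card_addSubgroup ℓ.ker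
    rw [h2]
    congr 1
    exact Nat.card_congr (QuotientAddGroup.quotientKerEquivOfSurjective ℓ hsurj).toEquiv
  rw [Nat.card_eq_fintype_card, Nat.card_eq_fintype_card] at h1
  rw [Fintype.card_fun] at h1
  rw [h1]
  congr 1
  rw [← Nat.card_eq_fintype_card]
  rfl

/-- the count for the hypersurface `∑ y_e E_e(t) = 0` -/
theorem cayley {τ ρ : Type} [Fintype τ] [Fintype ρ] (E : ρ → (τ → κ) → κ) :
    Fintype.card κ * Fintype.card {x : (τ → κ) × (ρ → κ) // ∑ e, x.2 e * E e x.1 = 0} =
      Fintype.card κ ^ Fintype.card ρ * (Fintype.card κ ^ Fintype.card τ +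
        (Fintype.card κ - 1) * Fintype.card {t : τ → κ // ∀ e, E e t = 0}) := by
  have h1 : Fintype.card {x : (τ → κ) × (ρ → κ) // ∑ e, x.2 e * E e x.1 = 0} =
      ∑ t : τ → κ, Fintype.card {y : ρ → κ // ∑ e, y e * E e t = 0} := by
    rw [← Fintype.card_sigma]
    apply Fintype.card_congr
    exact
      { toFun := fun x => ⟨x.1.1, ⟨x.1.2, x.2⟩⟩
        invFun := fun x => ⟨(x.1, x.2.1), x.2.2⟩
        left_inv := fun x => rfl
        right_inv := fun x => rfl }
  have hq : 0 < Fintype.card κ := Fintype.card_pos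
  have h2 : ∀ t : τ → κ, Fintype.card κ * Fintype.card {y : ρ → κ // ∑ e, y e * E e t = 0} =
      Fintype.card κ ^ Fintype.card ρ + if ∀ e, E e t = 0 then
        Fintype.card κ ^ Fintype.card ρ * (Fintype.card κ - 1) else 0 := by
    intro t
    split_ifs with h
    · have h3 : Fintype.card {y : ρ → κ // ∑ e, y e * E e t = 0} = Fintype.card κ ^ Fintype.card ρ := by
        rw [← Fintype.card_fun]
        apply Fintype.card_congr
        exact
          { toFun := fun y => y.1
            invFun := fun y => ⟨y, by simp [h]⟩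
            left_inv := fun x => rfl
            right_inv := fun x => rfl }
      rw [h3]
      obtain ⟨k, hk⟩ : ∃ k, Fintype.card κ = k + 1 := ⟨Fintype.card κ - 1, by omega⟩
      rw [hk, Nat.add_sub_cancel]
      ring
    · rw [add_zero]
      apply card_ker
      intro hc
      exact h (fun e => congrFun hc e)
  rw [h1, Finset.mul_sum, Finset.sum_congr rfl (fun t _ => h2 t), Finset.sum_add_distrib,
    Finset.sum_const, card_univ, Fintype.card_fun, smul_eq_mul, ← Finset.sum_filter, Finset.sum_const,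
    smul_eq_mul, Fintype.card_subtype]
  ring

/-- functions vanishing on a set -/
lemma card_vanish {τ : Type} [Fintype τ] (A : Finset τ) :
    Fintype.card {t : τ → κ // ∀ a ∈ A, t a = 0} = Fintype.card κ ^ (Fintype.card τ - A.card) := by
  rw [Fintype.card_subtype]
  have h1 : (univ.filter (fun t : τ → κ => ∀ a ∈ A, t a = 0)) =
      Fintype.piFinset (fun a => if a ∈ A then ({0} : Finset κ) else univ) := by
    ext t
    rw [mem_filter, Fintype.mem_piFinset]
    constructor
    · rintro ⟨_, h⟩ a
      split_ifs with ha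
      · rw [mem_singleton]; exact h a ha
      · exact mem_univ _
    · intro h
      refine ⟨mem_univ _, fun a ha => ?_⟩
      have := h a
      rw [if_pos ha, mem_singleton] at this
      exact this
  rw [h1, Fintype.card_piFinset]
  have h2 : ∀ a : τ, (if a ∈ A then ({0} : Finset κ) else univ).card =
      if a ∈ A then 1 else Fintype.card κ := by
    intro a
    split_ifs
    · simp
    · exact card_univ
  rw [Finset.prod_congr rfl (fun a _ => h2 a), Finset.prod_ite, Finset.prod_const_one, one_mul,
    Finset.prod_const]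
  congr 1
  rw [Finset.filter_not, Finset.card_sdiff_of_subset (filter_subset _ _), Finset.filter_univ_mem, card_univ]

lemma card_fiber {ρ : Type} [Fintype ρ] (c : ρ → κ) (hc : c ≠ 0) (b : κ) :
    Fintype.card κ * Fintype.card {y : ρ → κ // ∑ e, y e * c e = b} = Fintype.card κ ^ Fintype.card ρ := by
  obtain ⟨e₀, he₀⟩ : ∃ e, c e ≠ 0 := by
    by_contra h
    push Not at h
    exact hc (funext h)
  obtain ⟨y₀, hy₀⟩ : ∃ y₀ : ρ → κ, ∑ e, y₀ e * c e = b := by
    refine ⟨Pi.single e₀ (b / c e₀), ?_⟩
    rw [Finset.sum_eq_single e₀]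
    · rw [Pi.single_eq_same, div_mul_cancel₀ _ he₀]
    · intro e _ he
      rw [Pi.single_eq_of_ne he, zero_mul]
    · intro h; exact absurd (Finset.mem_univ _) h
  rw [← card_ker c hc]
  congr 1
  apply Fintype.card_congr
  exact
    { toFun := fun y => ⟨y.1 - y₀, by
        simp only [Pi.sub_apply, sub_mul, Finset.sum_sub_distrib]
        rw [y.2, hy₀, sub_self]⟩
      invFun := fun y => ⟨y.1 + y₀, by
        simp only [Pi.add_apply, add_mul, Finset.sum_add_distrib]
        rw [y.2, hy₀, zero_add]⟩
      left_inv := fun y => by simp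
      right_inv := fun y => by simp }

/-- the count for the hypersurface `∑ y_e E_e(t) = 1` -/
theorem cayley1 {τ ρ : Type} [Fintype τ] [Fintype ρ] (E : ρ → (τ → κ) → κ) :
    Fintype.card κ * Fintype.card {x : (τ → κ) × (ρ → κ) // ∑ e, x.2 e * E e x.1 = 1} +
      Fintype.card κ ^ Fintype.card ρ * Fintype.card {t : τ → κ // ∀ e, E e t = 0} =
      Fintype.card κ ^ Fintype.card ρ * Fintype.card κ ^ Fintype.card τ := by
  have h1 : Fintype.card {x : (τ → κ) × (ρ → κ) // ∑ e, x.2 e * E e x.1 = 1} =
      ∑ t : τ → κ, Fintype.card {y : ρ → κ // ∑ e, y e * E e t = 1} := by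
    rw [← Fintype.card_sigma]
    apply Fintype.card_congr
    exact
      { toFun := fun x => ⟨x.1.1, ⟨x.1.2, x.2⟩⟩
        invFun := fun x => ⟨(x.1, x.2.1), x.2.2⟩
        left_inv := fun x => rfl
        right_inv := fun x => rfl }
  have h2 : ∀ t : τ → κ, Fintype.card κ * Fintype.card {y : ρ → κ // ∑ e, y e * E e t = 1} +
      (if ∀ e, E e t = 0 then Fintype.card κ ^ Fintype.card ρ else 0) =
      Fintype.card κ ^ Fintype.card ρ := by
    intro t
    split_ifs with h
    · have h3 : Fintype.card {y : ρ → κ // ∑ e, y e * E e t = 1} = 0 := by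
        rw [Fintype.card_eq_zero_iff]
        refine ⟨fun y => ?_⟩
        have := y.2
        simp [h] at this
      rw [h3, mul_zero, zero_add]
    · rw [add_zero]
      apply card_fiber
      intro hc
      exact h (fun e => congrFun hc e)
  have h4 : ∑ t : τ → κ, (if ∀ e, E e t = 0 then Fintype.card κ ^ Fintype.card ρ else 0) =
      Fintype.card κ ^ Fintype.card ρ * Fintype.card {t : τ → κ // ∀ e, E e t = 0} := by
    rw [← Finset.sum_filter, Finset.sum_const, smul_eq_mul, Fintype.card_subtype, mul_comm]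
  rw [h1, Finset.mul_sum, ← h4, ← Finset.sum_add_distrib, Finset.sum_congr rfl (fun t _ => h2 t),
    Finset.sum_const, card_univ, Fintype.card_fun, smul_eq_mul, mul_comm]

/-- the count for the hypersurface `∑ y_e E_e(t) = 1`, with `Nat.card` -/
theorem cayley1N {κ : Type} [Field κ] [Finite κ] {τ ρ : Type} [Finite τ] [Finite ρ] [Fintype ρ]
    (E : ρ → (τ → κ) → κ) :
    Nat.card κ * Nat.card {x : (τ → κ) × (ρ → κ) // ∑ e, x.2 e * E e x.1 = 1} +
      Nat.card κ ^ Nat.card ρ * Nat.card {t : τ → κ // ∀ e, E e t = 0} =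
      Nat.card κ ^ Nat.card ρ * Nat.card κ ^ Nat.card τ := by
  haveI := Fintype.ofFinite κ
  haveI := Fintype.ofFinite τ
  have := cayley1 E
  rw [Nat.card_eq_fintype_card, Nat.card_eq_fintype_card, Nat.card_eq_fintype_card,
    Nat.card_eq_fintype_card, Nat.card_eq_fintype_card]
  exact this

/-- the count for the hypersurface `∑ y_e E_e(t) = 0`, with `Nat.card` -/
theorem cayleyN {κ : Type} [Field κ] [Finite κ] {τ ρ : Type} [Finite τ] [Finite ρ] [Fintype ρ]
    (E : ρ → (τ → κ) → κ) :
    Nat.card κ * Nat.card {x : (τ → κ) × (ρ → κ) // ∑ e, x.2 e * E e x.1 = 0} =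
      Nat.card κ ^ Nat.card ρ * (Nat.card κ ^ Nat.card τ +
        (Nat.card κ - 1) * Nat.card {t : τ → κ // ∀ e, E e t = 0}) := by
  haveI := Fintype.ofFinite κ
  haveI := Fintype.ofFinite τ
  have := cayley E
  rw [Nat.card_eq_fintype_card, Nat.card_eq_fintype_card, Nat.card_eq_fintype_card,
    Nat.card_eq_fintype_card, Nat.card_eq_fintype_card]
  exact this

lemma card_vanishN {κ : Type} [Field κ] [Finite κ] {τ : Type} [Finite τ] (A : Finset τ) :
    Nat.card {t : τ → κ // ∀ a ∈ A, t a = 0} = Nat.card κ ^ (Nat.card τ - A.card) := by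
  haveI := Fintype.ofFinite κ
  haveI := Fintype.ofFinite τ
  have := card_vanish (κ := κ) A
  rw [Nat.card_eq_fintype_card, Nat.card_eq_fintype_card, Nat.card_eq_fintype_card]
  exact this

lemma card_split {α : Type} [Finite α] (P Q : α → Prop) : Nat.card {t // P t} =
    Nat.card {t // P t ∧ ¬ Q t} + Nat.card {t // P t ∧ Q t} := by
  haveI := Fintype.ofFinite α
  rw [Nat.card_eq_fintype_card, Nat.card_eq_fintype_card, Nat.card_eq_fintype_card,
    Fintype.card_subtype, Fintype.card_subtype, Fintype.card_subtype, ← Finset.filter_filter,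
    ← Finset.filter_filter, add_comm, Finset.card_filter_add_card_filter_not]

end Pool.Agent.V8H32.CF
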