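import Pool.Agent.TH958.BV.Defs

/-!
# The weight parts of the zeta function of a projective scheme over the integers of a number field
-/

set_option autoImplicit false

namespace Pool.Agent.V8H32.CF

open NumberField IsDedekindDomain Pool.Agent.TH958.BV

variable {K : Type} [Field K] [NumberField K]

/-- The number `q_v` of elements of the residue field of `v`. -/
noncomputable def nv (v : HeightOneSpectrum (𝓞 K)) : ℕ := Ideal.absNorm v.asIdeal

/-- `Y ⊂ ℙ^{n-1}` is given by equations over the integers of `K`. The function `c`, with finite support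
and integral values, is the Frobenius divisor of `Y` at the prime `v`: the number of points of `Y` with
coordinates in the extension of degree `e` of the residue field is `∑_z c(z) z^e`, and every `z` with
`c(z) ≠ 0` has the absolute value `q_v^{w/2}` for an integer `w ≥ 0`, its weight. By Dwork and Deligne
such a function `c` exists for all `Y` and `v`, and it is unique. (`cone` is the number of the nonzero
solutions of the equations, that is `q_v^e - 1` times the number of points.) -/
def IsFrobDivisor {n : ℕ} (Y : Set (MvPolynomial (Fin n) (𝓞 K))) (v : HeightOneSpectrum (𝓞 K))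
    (c : ℂ →₀ ℤ) : Prop :=
  (∀ z ∈ c.support, ∃ w : ℕ, ‖z‖ = (nv v : ℝ) ^ ((w : ℝ) / 2)) ∧
    ∀ (κ : Type) [Field κ] [Finite κ] (φ : 𝓞 K →+* κ) (e : ℕ), RingHom.ker φ = v.asIdeal →
      Nat.card κ = nv v ^ e →
      (cone Y φ : ℂ) = ((nv v : ℂ) ^ e - 1) * c.sum (fun z m => (m : ℂ) * z ^ e)

/-- `∏_z (1 - z x)^{-c(z)}` -/
noncomputable def lf (c : ℂ →₀ ℤ) (x : ℂ) : ℂ := c.prod fun z m => (1 - z * x) ^ (-m)

/-- the part of weight `w` of `c`: the `z` with `|z| = Q^{w/2}` -/
noncomputable def wpart (Q : ℝ) (w : ℕ) (c : ℂ →₀ ℤ) : ℂ →₀ ℤ := by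
  classical exact c.filter (fun z => ‖z‖ = Q ^ ((w : ℝ) / 2))

open Classical in
/-- The part of weight `w` of the zeta function: the Euler product over the primes `v ∉ S` and the `z` of
weight `w` of the factors `(1 - z q_v^{-s})^{-c_v(z)}`. -/
noncomputable def LW (S : Finset (HeightOneSpectrum (𝓞 K)))
    (c : HeightOneSpectrum (𝓞 K) → ℂ →₀ ℤ) (w : ℕ) (s : ℂ) : ℂ :=
  ∏' v : HeightOneSpectrum (𝓞 K), if v ∈ S then 1 else
    lf (wpart (nv v) w (c v)) ((nv v : ℂ) ^ (-s))

/-- `∑_z |c_v(z)|` is bounded for `v ∉ S`. -/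
def Bdd (S : Finset (HeightOneSpectrum (𝓞 K))) (c : HeightOneSpectrum (𝓞 K) → ℂ →₀ ℤ) : Prop :=
  ∃ B : ℕ, ∀ v, v ∉ S → (c v).sum (fun _ m => m.natAbs) ≤ B

end Pool.Agent.V8H32.CF
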